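import Pool.Agent.Lib.MP_33ede1_an.Dat

/-!
Boundary behaviour of the correspondence and isospectrality on the disc.
-/

open Set Filter Topology Metric InnerProductSpace Complex Polynomial
open scoped ContDiff ComplexConjugate

namespace Pool.Agent.Lib.MP_33ede1_an

noncomputable def WW (a b t : ℂ) : ℂ :=
  (NN b t + 3 * t * (2 * t + al * (1 + b ^ 3))) * MM a t -
    3 * t * NN b t * (al * (1 + a ^ 3) + 2 * al ^ 2 * a ^ 3 * t)

lemma hasDerivAt_M (a x : ℂ) : HasDerivAt (fun x => MM a (x ^ 3))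
    (3 * x ^ 2 * (al * (1 + a ^ 3) + 2 * al ^ 2 * a ^ 3 * x ^ 3)) x := by
  have h3 := hasDerivAt_pow 3 x
  have := ((h3.const_mul al).const_add 1).mul ((h3.const_mul (al * a ^ 3)).const_add 1)
  refine this.congr_deriv ?_
  push_cast
  ring

lemma hasDerivAt_xN (b x : ℂ) : HasDerivAt (fun x => x * NN b (x ^ 3))
    (NN b (x ^ 3) + 3 * x ^ 3 * (2 * x ^ 3 + al * (1 + b ^ 3))) x := by
  have h3 := hasDerivAt_pow 3 x
  have := (hasDerivAt_id x).mul ((h3.add_const al).mul (h3.add_const (al * b ^ 3)))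
  refine this.congr_deriv ?_
  simp only [NN, id, Pi.mul_apply]
  push_cast
  ring

lemma hasDerivAt_bb {a b x : ℂ} (h : MM a (x ^ 3) ≠ 0) :
    HasDerivAt (bb a b) (gam a * (WW a b (x ^ 3) / MM a (x ^ 3) ^ 2)) x := by
  have := ((hasDerivAt_xN b x).div (hasDerivAt_M a x) h).const_mul (gam a)
  refine this.congr_deriv ?_
  rw [WW]
  ring

lemma analyticAt_M (a x : ℂ) : AnalyticAt ℂ (fun x => MM a (x ^ 3)) x := by
  unfold MM
  fun_prop

lemma analyticAt_bb {a b x : ℂ} (h : MM a (x ^ 3) ≠ 0) : AnalyticAt ℂ (bb a b) x := by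
  have h1 : AnalyticAt ℂ (fun x => x * NN b (x ^ 3)) x := by
    unfold NN
    fun_prop
  exact analyticAt_const.mul (h1.div (analyticAt_M a x) h)

lemma exists_linv {φ : ℂ → ℂ} {x β : ℂ} (h : AnalyticAt ℂ φ x) (hd : HasDerivAt φ β x)
    (h0 : β ≠ 0) : ∃ G : ℂ → ℂ, G (φ x) = x ∧ HasDerivAt G β⁻¹ (φ x) ∧ AnalyticAt ℂ G (φ x) ∧
      ∀ᶠ w in 𝓝 (φ x), φ (G w) = w := by
  obtain rfl := hd.deriv
  exact ⟨_, (h.hasStrictDerivAt.eventually_left_inverse h0).self_of_nhds,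
    (h.hasStrictDerivAt.to_localInverse h0).hasDerivAt, h.analyticAt_localInverse h0,
    h.hasStrictDerivAt.eventually_right_inverse h0⟩

namespace Dat

variable (D : Dat)

lemma W_fac (t : ℂ) : WW D.a D.b t = D.k * (t ^ 2 + D.q1 * t + D.q2) * QQ D.p1 D.p2 t := by
  unfold WW NN MM QQ
  linear_combination -D.w0 - t * D.w1 - t ^ 2 * D.w2 - t ^ 3 * D.w1' - t ^ 4 * D.w0'

lemma p_bd : ‖D.p1‖ ≤ 1 / 10 ∧ ‖D.p2‖ ≤ 1 / 100 := by
  have hk := D.hk
  constructor
  · have h := D.w2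
    have a1 : conj D.p1 = D.q1 := D.swap.h1
    have a2 : conj D.p2 = D.q2 := D.swap.h2
    rw [w2_num D.hs D.hp, ← a1, ← a2, Complex.conj_mul', Complex.conj_mul'] at h
    have h' : D.k * (1 + ‖D.p1‖ ^ 2 + ‖D.p2‖ ^ 2) = 5971783 / 850176 := by
      apply Complex.ofReal_injective
      push_cast
      exact h
    have h2 : ‖D.p1‖ ^ 2 ≤ (1 / 10) ^ 2 := by
      by_contra hc
      have hc := not_le.1 hc
      nlinarith [sq_nonneg ‖D.p2‖]
    exact (abs_le_of_sq_le_sq' h2 (by norm_num)).2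
  · have h := congrArg norm D.w0'
    rw [norm_mul, norm_mul, norm_pow, norm_pow, norm_al, Complex.norm_real,
      Real.norm_of_nonneg (by linarith)] at h
    nlinarith [D.norm_a3.2, norm_nonneg D.p2]

lemma Q_sub {t : ℂ} (ht : ‖t‖ ≤ 21 / 20) : ‖QQ D.p1 D.p2 t - 1‖ ≤ 12 / 100 := by
  have e : QQ D.p1 D.p2 t - 1 = D.p1 * t + D.p2 * t ^ 2 := by rw [QQ]; ring
  have h := norm_add_le (D.p1 * t) (D.p2 * t ^ 2)
  rw [norm_mul, norm_mul, norm_pow] at h
  have h0 := norm_nonneg t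
  have h1 : ‖D.p1‖ * ‖t‖ ≤ 1 / 10 * (21 / 20) :=
    mul_le_mul D.p_bd.1 ht h0 (by norm_num)
  have h2 : ‖D.p2‖ * ‖t‖ ^ 2 ≤ 1 / 100 * (21 / 20) ^ 2 :=
    mul_le_mul D.p_bd.2 (pow_le_pow_left₀ h0 ht 2) (by positivity) (by norm_num)
  rw [e]
  linarith

lemma Q_ne {t : ℂ} (ht : ‖t‖ ≤ 21 / 20) : QQ D.p1 D.p2 t ≠ 0 := by
  intro h
  have := D.Q_sub ht
  rw [h] at this
  norm_num at this

/-- The logarithmic derivative on the circle. -/
noncomputable def LL (x : ℂ) : ℝ := D.k * ‖QQ D.p1 D.p2 (x ^ 3) / MM D.a (x ^ 3)‖ ^ 2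

lemma LL_pos {x : ℂ} (hx : ‖x‖ = 1) : 0 < D.LL x := by
  have h1 := D.M_ne' hx.le
  have h2 := D.Q_ne (t := x ^ 3) ((cube_le hx.le).trans (by norm_num))
  have h3 : 0 < D.k := lt_of_lt_of_le (by norm_num) D.hk
  exact mul_pos h3 (pow_pos (norm_pos_iff.2 (div_ne_zero h2 h1)) 2)

lemma logder {x : ℂ} (hx : ‖x‖ = 1) :
    x * (gam D.a * (WW D.a D.b (x ^ 3) / MM D.a (x ^ 3) ^ 2)) = bb D.a D.b x * D.LL x := by
  have hM := D.M_ne' hx.le
  set t := x ^ 3 with ht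
  have h1 : t * conj t = 1 := by
    rw [Complex.mul_conj', ht, norm_pow, hx]; simp
  have e1 : t ^ 2 + D.q1 * t + D.q2 = t ^ 2 * conj (QQ D.p1 D.p2 t) := by
    have a1 : conj D.p1 = D.q1 := D.swap.h1
    have a2 : conj D.p2 = D.q2 := D.swap.h2
    simp only [QQ, map_add, map_mul, map_pow, map_one, a1, a2]
    linear_combination (-D.q1 * t - D.q2 * (t * conj t + 1)) * h1
  have e2 : NN D.b t = t ^ 2 * conj (MM D.a t) := by
    simp only [NN, MM, map_add, map_mul, map_pow, map_one, conj_al, D.ha]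
    linear_combination (-al * t * (1 + D.b ^ 3) - al ^ 2 * D.b ^ 3 * (t * conj t + 1)) * h1
  have hM' : conj (MM D.a t) ≠ 0 := by simpa using hM
  rw [W_fac, bb, LL, e1, ← ht, e2]
  push_cast
  rw [← Complex.mul_conj', map_div₀]
  field_simp

lemma bb_ne {x : ℂ} (hx : ‖x‖ = 1) : bb D.a D.b x ≠ 0 := by
  have h1 := D.M_ne' hx.le
  have h2 := D.N_ne (cube_ge hx.ge)
  have h3 := D.gam_ne
  have h4 : x ≠ 0 := by rintro rfl; simp at hx
  unfold bb
  positivity

lemma norm_f (x : ℂ) : D.k * ‖D.f x‖ = ‖1 + D.c * bb D.a D.b x ^ 3‖ * D.LL x := by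
  rw [f, ff, LL, norm_mul, norm_pow]
  ring

lemma branch {x y : ℂ} (hy : ‖y‖ = 1) (e : (1 + al * y ^ 3) * x ^ 3 + gg * D.a * y * x ^ 2 +
    gg * D.b * y ^ 2 * x + (y ^ 3 + al) = 0) :
    ‖x‖ = 1 ∧ 3 * (1 + al * y ^ 3) * x ^ 2 + 2 * (gg * D.a * y) * x + gg * D.b * y ^ 2 ≠ 0 ∧
    ∃ ξ : ℂ → ℂ, AnalyticAt ℂ ξ y ∧ ξ y = x ∧
      (∀ᶠ w in 𝓝 y, (1 + al * w ^ 3) * ξ w ^ 3 + gg * D.a * w * ξ w ^ 2 +
        gg * D.b * w ^ 2 * ξ w + (w ^ 3 + al) = 0) ∧
      ∃ l : ℝ, deriv ξ y * y = l * x ∧ l * ‖D.f x‖ = ‖D.swap.f y‖ := by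
  have hx : ‖x‖ = 1 := by
    refine le_antisymm (D.A_le hy.le e) (not_lt.1 fun hlt => ?_)
    have := D.swap.A_lt (x := y) (y := x) hlt (by
      change (1 + al * x ^ 3) * y ^ 3 + gg * D.b * x * y ^ 2 + gg * D.a * x ^ 2 * y +
        (x ^ 3 + al) = 0
      linear_combination e)
    linarith
  have hM := D.M_ne' hx.le
  have hM' : MM D.b (y ^ 3) ≠ 0 := D.swap.M_ne' hy.le
  have key : ∀ z w : ℂ, MM D.a (z ^ 3) ≠ 0 → MM D.b (w ^ 3) ≠ 0 →
      ((1 + al * w ^ 3) * z ^ 3 + gg * D.a * w * z ^ 2 + gg * D.b * w ^ 2 * z + (w ^ 3 + al)) *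
        BB D.a z w = MM D.a (z ^ 3) * MM D.b (w ^ 3) * (bb D.a D.b z + bb D.b D.a w) := by
    intro z w h1 h2
    rw [← factor D.hs D.hp, bb, bb]
    field_simp
  have rel : bb D.a D.b x + bb D.b D.a y = 0 := by
    have := key x y hM hM'
    rw [e, zero_mul] at this
    exact (mul_eq_zero.1 this.symm).resolve_left (mul_ne_zero hM hM')
  set β := gam D.a * (WW D.a D.b (x ^ 3) / MM D.a (x ^ 3) ^ 2) with hβ
  set β' := gam D.b * (WW D.b D.a (y ^ 3) / MM D.b (y ^ 3) ^ 2) with hβ'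
  have l1 : x * β = bb D.a D.b x * D.LL x := D.logder hx
  have l2 : y * β' = bb D.b D.a y * D.swap.LL y := D.swap.logder hy
  have p1 := D.LL_pos hx
  have p1' : (D.LL x : ℂ) ≠ 0 := by exact_mod_cast p1.ne'
  have hb := D.bb_ne hx
  have hβ0 : β ≠ 0 := by
    intro h0
    rw [h0, mul_zero] at l1
    exact mul_ne_zero hb p1' l1.symm
  have d1 : HasDerivAt (bb D.a D.b) β x := hasDerivAt_bb hM
  have d2 : HasDerivAt (bb D.b D.a) β' y := hasDerivAt_bb hM'
  have simple : (3 * (1 + al * y ^ 3) * x ^ 2 + 2 * (gg * D.a * y) * x + gg * D.b * y ^ 2) *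
      BB D.a x y ≠ 0 := by
    have dA : HasDerivAt (fun z => (1 + al * y ^ 3) * z ^ 3 + gg * D.a * y * z ^ 2 +
        gg * D.b * y ^ 2 * z + (y ^ 3 + al))
        (3 * (1 + al * y ^ 3) * x ^ 2 + 2 * (gg * D.a * y) * x + gg * D.b * y ^ 2) x := by
      have := ((((hasDerivAt_pow 3 x).const_mul (1 + al * y ^ 3)).add
        ((hasDerivAt_pow 2 x).const_mul (gg * D.a * y))).add
        ((hasDerivAt_id x).const_mul (gg * D.b * y ^ 2))).add_const (y ^ 3 + al)
      refine this.congr_deriv ?_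
      push_cast
      ring
    have dB : DifferentiableAt ℂ (fun z => BB D.a z y) x := by
      unfold BB
      fun_prop
    have u1 := dA.mul dB.hasDerivAt
    have u2 := ((hasDerivAt_M D.a x).mul_const (MM D.b (y ^ 3))).mul
      (d1.add_const (bb D.b D.a y))
    have u3 := u2.congr_of_eventuallyEq (f₁ := (fun z => (1 + al * y ^ 3) * z ^ 3 +
        gg * D.a * y * z ^ 2 + gg * D.b * y ^ 2 * z + (y ^ 3 + al)) * fun z => BB D.a z y) (by
      filter_upwards [(analyticAt_M D.a x).continuousAt.eventually_ne hM] with z hz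
      exact key z y hz hM')
    have u4 := u1.unique u3
    simp only [e, rel, zero_mul, mul_zero, add_zero, zero_add] at u4
    rw [u4]
    exact mul_ne_zero (mul_ne_zero hM hM') hβ0
  have an1 := analyticAt_bb (b := D.b) hM
  have an2 := analyticAt_bb (b := D.a) hM'
  obtain ⟨G, gx, gd, ga, gr⟩ := exists_linv an1 d1 hβ0
  have r0 : -bb D.b D.a y = bb D.a D.b x := by linear_combination -rel
  have ξa : AnalyticAt ℂ (fun w => G (-bb D.b D.a w)) y :=
    AnalyticAt.comp_of_eq ga an2.neg r0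
  have ξy : G (-bb D.b D.a y) = x := by rw [r0, gx]
  refine ⟨hx, left_ne_zero_of_mul simple, fun w => G (-bb D.b D.a w), ξa, ξy, ?_,
    D.swap.LL y / D.LL x, ?_, ?_⟩
  · have t1 : Tendsto (fun w => -bb D.b D.a w) (𝓝 y) (𝓝 (bb D.a D.b x)) := by
      rw [← r0]; exact an2.neg.continuousAt
    have t2 : Tendsto (fun w => G (-bb D.b D.a w)) (𝓝 y) (𝓝 x) := by
      have := ξa.continuousAt.tendsto
      rwa [ξy] at this
    have t3 : ContinuousAt (fun w => BB D.a (G (-bb D.b D.a w)) w) y := by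
      have hB : Continuous fun p : ℂ × ℂ => BB D.a p.1 p.2 := by
        unfold BB
        fun_prop
      exact hB.continuousAt.comp (f := fun w => (G (-bb D.b D.a w), w))
        (ξa.continuousAt.prodMk continuousAt_id)
    filter_upwards [t1.eventually gr,
      t2.eventually ((analyticAt_M D.a x).continuousAt.eventually_ne hM),
      (analyticAt_M D.b y).continuousAt.eventually_ne hM',
      t3.eventually_ne (y := 0) (by rw [ξy]; exact right_ne_zero_of_mul simple)] with w a1 a2 a3 a4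
    have := key _ w a2 a3
    rw [a1, neg_add_cancel, mul_zero] at this
    exact (mul_eq_zero.1 this).resolve_right a4
  · have := (HasDerivAt.comp_of_eq y gd d2.neg r0.symm).deriv
    have e2 : deriv (fun w => G (-bb D.b D.a w)) y = β⁻¹ * -β' := this
    rw [e2]
    push_cast
    field_simp
    linear_combination (-(D.LL x : ℂ)) * l2 - (D.swap.LL y : ℂ) * l1 -
      (D.LL x : ℂ) * (D.swap.LL y : ℂ) * rel
  · have n1 := D.norm_f x
    have n2 := D.swap.norm_f y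
    have h3 : 0 < D.k := lt_of_lt_of_le (by norm_num) D.hk
    have n3 : 1 + (D.swap.c : ℂ) * bb D.swap.a D.swap.b y ^ 3 = 1 + D.c * bb D.a D.b x ^ 3 := by
      change 1 + (D.d : ℂ) * bb D.b D.a y ^ 3 = _
      rw [D.hc, ← r0]
      push_cast
      ring
    rw [n3] at n2
    change D.k * _ = _ at n2
    apply mul_left_cancel₀ h3.ne'
    rw [n2, mul_left_comm, n1]
    field_simp

lemma corr : Corr (fun y => 1 + al * y ^ 3) (fun y => gg * D.a * y) (fun y => gg * D.b * y ^ 2)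
    (fun y => y ^ 3 + al) (fun z => ‖D.f z‖) (fun z => ‖D.swap.f z‖) where
  d3 := by fun_prop
  d2 := by fun_prop
  d1 := by fun_prop
  d0 := by fun_prop
  lead := fun _ hy => D.lead hy
  le := fun _ _ hy e => D.A_le hy e
  lt := fun _ _ hy e => D.A_lt hy e
  branch := fun _ _ hy e => D.branch hy e

lemma disc_le (σ : ℝ) : Module.rank ℝ (Submodule.span ℝ (discSol (fun z => ‖D.f z‖) σ)) ≤
    Module.rank ℝ (Submodule.span ℝ (discSol (fun z => ‖D.swap.f z‖) σ)) :=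
  rank_le _ _ (closedBall 0 1) _ (D.corr.maps σ) (fun _ hu => hu.2.2.2) D.inj

lemma disc_eq (σ : ℝ) : Module.rank ℝ (Submodule.span ℝ (discSol (fun z => ‖D.f z‖) σ)) =
    Module.rank ℝ (Submodule.span ℝ (discSol (fun z => ‖D.swap.f z‖) σ)) :=
  le_antisymm (D.disc_le σ) (D.swap.disc_le σ)

end Dat

end Pool.Agent.Lib.MP_33ede1_an
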