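import Pool.Agent.Lib.MP_33ede1_an.Defs

/-!
Conformal transfer of the Steklov problem to a weighted problem on the unit disc.
-/

open Set Filter Topology Metric InnerProductSpace Complex
open scoped ContDiff ComplexConjugate

namespace Pool.Agent.Lib.MP_33ede1_an

/-- The weighted Steklov problem on the unit disc. -/
def discSol (ρ : ℂ → ℝ) (σ : ℝ) : Set (ℂ → ℝ) :=
  {v | ContDiffOn ℝ 1 v (closedBall 0 1) ∧ HarmonicOnNhd v (ball 0 1) ∧
    (∀ z : ℂ, ‖z‖ = 1 → fderivWithin ℝ v (closedBall 0 1) z z = σ * ρ z * v z) ∧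
    ∀ z, z ∉ closedBall (0 : ℂ) 1 → v z = 0}

lemma rank_le (S₁ S₂ : Set (ℂ → ℝ)) (K : Set ℂ) (L : (ℂ → ℝ) →ₗ[ℝ] (ℂ → ℝ))
    (h1 : MapsTo L S₁ S₂) (h0 : ∀ u ∈ S₁, ∀ z, z ∉ K → u z = 0)
    (hinj : ∀ u, L u = 0 → ∀ z ∈ K, u z = 0) :
    Module.rank ℝ (Submodule.span ℝ S₁) ≤ Module.rank ℝ (Submodule.span ℝ S₂) := by
  have hm : ∀ u ∈ Submodule.span ℝ S₁, L u ∈ Submodule.span ℝ S₂ := by
    intro u hu
    have : Submodule.span ℝ S₁ ≤ (Submodule.span ℝ S₂).comap L :=
      Submodule.span_le.2 fun w hw => Submodule.subset_span (h1 hw)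
    exact this hu
  have hz : ∀ u ∈ Submodule.span ℝ S₁, ∀ z, z ∉ K → u z = 0 := by
    intro u hu z hz
    induction hu using Submodule.span_induction with
    | mem w hw => exact h0 w hw z hz
    | zero => rfl
    | add a b _ _ ha hb => simp [ha, hb]
    | smul c a _ ha => simp [ha]
  refine LinearMap.rank_le_of_injective (L.restrict hm) ?_
  rw [← LinearMap.ker_eq_bot, LinearMap.ker_eq_bot']
  intro u hu
  have h2 : L u = 0 := congrArg Subtype.val hu
  apply Subtype.ext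
  funext z
  by_cases hzK : z ∈ K
  · exact hinj u h2 z hzK
  · exact hz u u.2 z hzK

/-- Pull back along `Φ` and cut off outside `K`. -/
noncomputable def pull (K : Set ℂ) (Φ : ℂ → ℂ) : (ℂ → ℝ) →ₗ[ℝ] (ℂ → ℝ) where
  toFun u := K.indicator (u ∘ Φ)
  map_add' u v := by
    funext z
    by_cases hz : z ∈ K <;> simp [hz]
  map_smul' c u := by
    funext z
    by_cases hz : z ∈ K <;> simp [hz]

lemma pull_apply_mem {K : Set ℂ} {Φ : ℂ → ℂ} {u : ℂ → ℝ} {z : ℂ} (hz : z ∈ K) :
    pull K Φ u z = u (Φ z) := by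
  simp [pull, hz]

lemma pull_apply_not_mem {K : Set ℂ} {Φ : ℂ → ℂ} {u : ℂ → ℝ} {z : ℂ} (hz : z ∉ K) :
    pull K Φ u z = 0 := by
  simp [pull, hz]

lemma harmonicAt_comp {u : ℂ → ℝ} {Φ : ℂ → ℂ} {z : ℂ} (hu : HarmonicAt u (Φ z))
    (hΦ : AnalyticAt ℂ Φ z) : HarmonicAt (u ∘ Φ) z := by
  obtain ⟨ε, hε, hb⟩ := Metric.eventually_nhds_iff_ball.1 hu.eventually
  obtain ⟨H, hH, he⟩ := HarmonicOnNhd.exists_analyticOnNhd_ball_re_eq (f := u) (z := Φ z)
    (R := ε) hb
  have h1 : HarmonicAt (fun w => (H (Φ w)).re) z :=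
    ((hH _ (mem_ball_self hε)).comp hΦ).harmonicAt_re
  refine (harmonicAt_congr_nhds ?_).1 h1
  filter_upwards [hΦ.continuousAt.preimage_mem_nhds (ball_mem_nhds _ hε)] with w hw
  exact he hw

lemma hasFDerivWithinAt_comp {u : ℂ → ℝ} {Φ : ℂ → ℂ} {S S' : Set ℂ} {z d : ℂ}
    (hu : ContDiffWithinAt ℝ 1 u S (Φ z)) (hΦ : HasDerivAt Φ d z)
    (hm : ∀ᶠ w in 𝓝[S'] z, Φ w ∈ S) :
    HasFDerivWithinAt (u ∘ Φ)
      ((fderivWithin ℝ u S (Φ z)).comp (d • (1 : ℂ →L[ℝ] ℂ))) S' z := by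
  refine HasFDerivWithinAt.comp_of_tendsto z
    (hu.differentiableWithinAt one_ne_zero).hasFDerivWithinAt
    hΦ.complexToReal_fderiv.hasFDerivWithinAt ?_
  exact tendsto_nhdsWithin_iff.2 ⟨hΦ.continuousAt.continuousWithinAt, hm⟩

lemma contDiffWithinAt_comp {u : ℂ → ℝ} {Φ : ℂ → ℂ} {S S' : Set ℂ} {z : ℂ}
    (hu : ContDiffWithinAt ℝ 1 u S (Φ z)) (hΦ : AnalyticAt ℂ Φ z)
    (hm : ∀ᶠ w in 𝓝[S'] z, Φ w ∈ S) : ContDiffWithinAt ℝ 1 (u ∘ Φ) S' z :=
  hu.comp_of_preimage_mem_nhdsWithin z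
    ((hΦ.contDiffAt (n := 1)).restrict_scalars ℝ).contDiffWithinAt hm

lemma uniqueDiff_closedBall : UniqueDiffOn ℝ (closedBall (0 : ℂ) 1) :=
  uniqueDiffOn_convex (convex_closedBall 0 1)
    (by rw [interior_closedBall 0 one_ne_zero]; exact ⟨0, mem_ball_self one_pos⟩)

lemma normal_unique {Ω : Set ℂ} {p ν₁ ν₂ : ℂ} (h₁ : IsOutwardNormal Ω p ν₁)
    (h₂ : IsOutwardNormal Ω p ν₂) : ν₁ = ν₂ := by
  obtain ⟨n1, ψ₁, -, z1, g1, e1⟩ := h₁
  obtain ⟨n2, ψ₂, -, z2, g2, e2⟩ := h₂
  by_contra hne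
  set v := ν₂ - ν₁ with hv
  have hlt : inner ℝ ν₁ ν₂ < 1 := by
    have := (inner_lt_one_iff_real_of_norm_eq_one n1 n2).2 hne
    exact this
  have line : HasDerivAt (fun t : ℝ => p + t • v) v 0 := by
    simpa using ((hasDerivAt_id (0 : ℝ)).smul_const v).const_add p
  have hp : p + (0 : ℝ) • v = p := by simp
  have d1 : HasDerivAt (fun t : ℝ => ψ₁ (p + t • v)) (inner ℝ ν₁ v) 0 := by
    have := HasFDerivAt.comp_hasDerivAt_of_eq (0 : ℝ) g1.hasFDerivAt line hp.symm
    simpa [Function.comp_def] using this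
  have d2 : HasDerivAt (fun t : ℝ => ψ₂ (p + t • v)) (inner ℝ ν₂ v) 0 := by
    have := HasFDerivAt.comp_hasDerivAt_of_eq (0 : ℝ) g2.hasFDerivAt line hp.symm
    simpa [Function.comp_def] using this
  have i1 : inner ℝ ν₁ v < 0 := by
    rw [hv, inner_sub_right, real_inner_self_eq_norm_sq, n1]; linarith
  have i2 : 0 < inner ℝ ν₂ v := by
    rw [hv, inner_sub_right, real_inner_self_eq_norm_sq, n2, real_inner_comm]; linarith
  have t1 := hasDerivAt_iff_tendsto_slope_zero.1 d1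
  have t2 := hasDerivAt_iff_tendsto_slope_zero.1 d2
  have hle : 𝓝[>] (0 : ℝ) ≤ 𝓝[≠] 0 := nhdsWithin_mono _ fun x hx => ne_of_gt hx
  have a1 := (t1.mono_left hle).eventually (gt_mem_nhds i1)
  have a2 := (t2.mono_left hle).eventually (lt_mem_nhds i2)
  have hc : Tendsto (fun t : ℝ => p + t • v) (𝓝[>] 0) (𝓝 p) := by
    have := line.continuousAt.tendsto
    rw [hp] at this
    exact this.mono_left nhdsWithin_le_nhds
  obtain ⟨t, ⟨⟨⟨b1, b2⟩, c1⟩, c2⟩, ht⟩ :=
    ((((a1.and a2).and (hc.eventually e1)).and (hc.eventually e2)).and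
      (self_mem_nhdsWithin (s := Ioi (0 : ℝ)) (a := 0))).exists
  simp only [zero_add, zero_smul, add_zero, z1, z2, sub_zero, smul_eq_mul] at b1 b2
  have ht' : 0 < t⁻¹ := inv_pos.2 ht
  have k1 : ψ₁ (p + t • v) < 0 := by
    by_contra h
    have := mul_nonneg ht'.le (not_lt.1 h)
    linarith
  have k2 : ψ₂ (p + t • v) < 0 := c2.1 (c1.2 k1)
  have := mul_neg_of_pos_of_neg ht' k2
  linarith

/-- A map holomorphic and injective with nonzero derivative on a disc of radius `r > 1`. -/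
structure Conf (F : ℂ → ℂ) (r : ℝ) : Prop where
  hr : 1 < r
  hF : DifferentiableOn ℂ F (ball 0 r)
  hi : InjOn F (ball 0 r)
  hd : ∀ z ∈ ball (0 : ℂ) r, deriv F z ≠ 0

/-- The inverse map. -/
noncomputable def cinv (F : ℂ → ℂ) (r : ℝ) : ℂ → ℂ := Function.invFunOn F (ball 0 r)

namespace Conf

variable {F : ℂ → ℂ} {r : ℝ} (h : Conf F r)
include h

lemma sub_closed : closedBall (0 : ℂ) 1 ⊆ ball 0 r := closedBall_subset_ball h.hr

lemma sub_open : ball (0 : ℂ) 1 ⊆ ball 0 r := ball_subset_ball h.hr.le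

lemma an {z : ℂ} (hz : z ∈ ball (0 : ℂ) r) : AnalyticAt ℂ F z :=
  h.hF.analyticAt (isOpen_ball.mem_nhds hz)

lemma strict {z : ℂ} (hz : z ∈ ball (0 : ℂ) r) : HasStrictDerivAt F (deriv F z) z :=
  (h.an hz).hasStrictDerivAt

lemma left {z : ℂ} (hz : z ∈ ball (0 : ℂ) r) : cinv F r (F z) = z :=
  h.hi.leftInvOn_invFunOn hz

lemma map_nhds {z : ℂ} (hz : z ∈ ball (0 : ℂ) r) : map F (𝓝 z) = 𝓝 (F z) :=
  (h.strict hz).map_nhds_eq (h.hd z hz)

lemma isOpen_image {S : Set ℂ} (hS : IsOpen S) (hs : S ⊆ ball 0 r) : IsOpen (F '' S) := by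
  rw [isOpen_iff_mem_nhds]
  rintro _ ⟨z, hz, rfl⟩
  rw [← h.map_nhds (hs hz)]
  exact image_mem_map (hS.mem_nhds hz)

lemma inv_strict {z : ℂ} (hz : z ∈ ball (0 : ℂ) r) :
    HasStrictDerivAt (cinv F r) (deriv F z)⁻¹ (F z) := by
  refine (h.strict hz).to_local_left_inverse (h.hd z hz) ?_
  filter_upwards [isOpen_ball.mem_nhds hz] with w hw using h.left hw

lemma inv_an {z : ℂ} (hz : z ∈ ball (0 : ℂ) r) : AnalyticAt ℂ (cinv F r) (F z) := by
  refine DifferentiableOn.analyticAt (s := F '' ball 0 r) ?_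
    ((h.isOpen_image isOpen_ball subset_rfl).mem_nhds (mem_image_of_mem F hz))
  rintro _ ⟨w, hw, rfl⟩
  exact (h.inv_strict hw).hasDerivAt.differentiableAt.differentiableWithinAt

lemma contOn : ContinuousOn F (closedBall 0 1) := h.hF.continuousOn.mono h.sub_closed

lemma closure_eq : closure (F '' ball 0 1) = F '' closedBall 0 1 := by
  apply Subset.antisymm
  · exact closure_minimal (image_mono ball_subset_closedBall)
      ((isCompact_closedBall 0 1).image_of_continuousOn h.contOn).isClosed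
  · have := h.contOn
    rw [← closure_ball 0 one_ne_zero] at this ⊢
    exact this.image_closure

lemma frontier_eq : frontier (F '' ball 0 1) = F '' sphere 0 1 := by
  rw [(h.isOpen_image isOpen_ball h.sub_open).frontier_eq, h.closure_eq,
    ← closedBall_sdiff_ball]
  exact ((h.hi.mono h.sub_closed).image_sdiff_subset ball_subset_closedBall).symm

lemma mem_iff {z : ℂ} (hz : z ∈ ball (0 : ℂ) r) :
    ∀ᶠ w in 𝓝 (F z), (w ∈ F '' ball 0 1 ↔ ‖cinv F r w‖ < 1) := by
  filter_upwards [(h.isOpen_image isOpen_ball subset_rfl).mem_nhds (mem_image_of_mem F hz)]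
  rintro _ ⟨w, hw, rfl⟩
  rw [h.left hw]
  constructor
  · rintro ⟨a, ha, e⟩
    rw [← h.hi (h.sub_open ha) hw e]
    simpa using ha
  · intro hlt
    exact mem_image_of_mem F (by simpa using hlt)

lemma normal {z : ℂ} (hz : ‖z‖ = 1) :
    IsOutwardNormal (F '' ball 0 1) (F z) (deriv F z * z / ‖deriv F z‖) := by
  have hzr : z ∈ ball (0 : ℂ) r := h.sub_closed (by simp [hz])
  have hd := h.hd z hzr
  have hn : 0 < ‖deriv F z‖ := norm_pos_iff.2 hd
  refine ⟨by simp [hz, hn.ne'], fun w => ‖deriv F z‖ / 2 * (‖cinv F r w‖ ^ 2 - 1), ?_, ?_, ?_, ?_⟩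
  · have h1 : ContDiffAt ℝ ∞ (cinv F r) (F z) :=
      ((h.inv_an hzr).contDiffAt (n := ∞)).restrict_scalars ℝ
    exact contDiffAt_const.mul ((h1.norm_sq ℝ).sub contDiffAt_const)
  · simp [h.left hzr, hz]
  · have h1 := (h.inv_strict hzr).hasDerivAt.complexToReal_fderiv
    have h2 := ((h1.norm_sq).sub_const 1).const_mul (‖deriv F z‖ / 2)
    rw [hasGradientAt_iff_hasFDerivAt]
    refine h2.congr_fderiv ?_
    ext v
    have hc : (‖deriv F z‖ : ℂ) ≠ 0 := by exact_mod_cast hn.ne'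
    have key : (‖deriv F z‖ : ℂ) * ((deriv F z)⁻¹ * v * conj z) =
        v * conj (deriv F z * z / ‖deriv F z‖) := by
      have e := Complex.mul_conj' (deriv F z)
      simp only [map_div₀, map_mul, conj_ofReal]
      field_simp
      linear_combination (-(v * conj z)) * e
    have k2 := congrArg Complex.re key
    rw [re_ofReal_mul] at k2
    simp only [smul_apply, ContinuousLinearMap.comp_apply, innerSL_apply_apply,
      one_apply_eq_self, smul_eq_mul, toDual_apply_apply, Complex.inner, h.left hzr,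
      nsmul_eq_mul, Nat.cast_ofNat]
    rw [← k2]
    ring
  · filter_upwards [h.mem_iff hzr] with w hw
    rw [hw, ← smul_eq_mul, smul_neg_iff_of_pos_left (by positivity), sub_neg,
      sq_lt_one_iff₀ (norm_nonneg _)]

lemma pull_mem {σ : ℝ} :
    MapsTo (pull (closedBall 0 1) F) (steklovSolutions (F '' ball 0 1) σ)
      (discSol (fun z => ‖deriv F z‖) σ) := by
  rintro u ⟨h1, h2, h3, -⟩
  rw [h.closure_eq] at h1 h3
  have hm : ∀ z, ∀ᶠ w in 𝓝[closedBall 0 1] z, F w ∈ F '' closedBall 0 1 := fun z => by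
    filter_upwards [self_mem_nhdsWithin] with w hw using mem_image_of_mem F hw
  refine ⟨?_, ?_, ?_, fun z hz => pull_apply_not_mem hz⟩
  · intro z hz
    exact (contDiffWithinAt_comp (h1 _ (mem_image_of_mem F hz)) (h.an (h.sub_closed hz))
      (hm z)).congr (fun w hw => pull_apply_mem hw) (pull_apply_mem hz)
  · intro z hz
    refine (harmonicAt_congr_nhds ?_).1
      (harmonicAt_comp (h2 _ (mem_image_of_mem F hz)) (h.an (h.sub_open hz)))
    filter_upwards [isOpen_ball.mem_nhds hz] with w hw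
    exact (pull_apply_mem (ball_subset_closedBall hw)).symm
  · intro z hz
    have hzc : z ∈ closedBall (0 : ℂ) 1 := by simp [hz]
    have hzr := h.sub_closed hzc
    have hn : 0 < ‖deriv F z‖ := norm_pos_iff.2 (h.hd z hzr)
    have hc : (‖deriv F z‖ : ℂ) ≠ 0 := by exact_mod_cast hn.ne'
    have d := ((hasFDerivWithinAt_comp (h1 _ (mem_image_of_mem F hzc))
      (h.strict hzr).hasDerivAt (hm z)).congr (f₁ := pull (closedBall 0 1) F u)
      (fun w hw => pull_apply_mem hw) (pull_apply_mem hzc)).fderivWithin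
      (uniqueDiff_closedBall z hzc)
    have b := h3 (F z) (by rw [h.frontier_eq]; exact mem_image_of_mem F (by simp [hz])) _
      (h.normal hz)
    have e : deriv F z * z = ‖deriv F z‖ • (deriv F z * z / ‖deriv F z‖) := by
      rw [real_smul]; field_simp
    rw [d, pull_apply_mem hzc]
    simp only [ContinuousLinearMap.comp_apply, smul_apply,
      one_apply_eq_self, smul_eq_mul]
    rw [e, map_smul, b, smul_eq_mul]
    ring

lemma push_mem {σ : ℝ} :
    MapsTo (pull (F '' closedBall 0 1) (cinv F r)) (discSol (fun z => ‖deriv F z‖) σ)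
      (steklovSolutions (F '' ball 0 1) σ) := by
  rintro v ⟨h1, h2, h3, -⟩
  have hm : ∀ p, ∀ᶠ w in 𝓝[F '' closedBall 0 1] p, cinv F r w ∈ closedBall (0 : ℂ) 1 := fun p => by
    filter_upwards [self_mem_nhdsWithin]
    rintro _ ⟨w, hw, rfl⟩
    rwa [h.left (h.sub_closed hw)]
  refine ⟨?_, ?_, ?_, ?_⟩
  · rw [h.closure_eq]
    rintro _ ⟨z, hz, rfl⟩
    have hzr := h.sub_closed hz
    exact (contDiffWithinAt_comp (by rw [h.left hzr]; exact h1 z hz) (h.inv_an hzr)
      (hm _)).congr (fun w hw => pull_apply_mem hw) (pull_apply_mem (mem_image_of_mem F hz))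
  · rintro _ ⟨z, hz, rfl⟩
    have hzr := h.sub_open hz
    refine (harmonicAt_congr_nhds ?_).1
      (harmonicAt_comp (u := v) (by rw [h.left hzr]; exact h2 z hz) (h.inv_an hzr))
    filter_upwards [(h.isOpen_image isOpen_ball h.sub_open).mem_nhds (mem_image_of_mem F hz)]
      with w hw
    exact (pull_apply_mem (image_mono ball_subset_closedBall hw)).symm
  · rw [h.closure_eq, h.frontier_eq]
    rintro _ ⟨z, hz, rfl⟩ ν hν
    have hz1 : ‖z‖ = 1 := by simpa using hz
    have hzc : z ∈ closedBall (0 : ℂ) 1 := sphere_subset_closedBall hz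
    have hzr := h.sub_closed hzc
    have hd := h.hd z hzr
    have hn : 0 < ‖deriv F z‖ := norm_pos_iff.2 hd
    have hc : (‖deriv F z‖ : ℂ) ≠ 0 := by exact_mod_cast hn.ne'
    have hu : UniqueDiffWithinAt ℝ (F '' closedBall 0 1) (F z) := by
      refine ((h.strict hzr).hasDerivAt.complexToReal_fderiv.hasFDerivWithinAt).uniqueDiffWithinAt
        (uniqueDiff_closedBall z hzc) ?_
      refine Function.Surjective.denseRange fun w => ⟨w / deriv F z, ?_⟩
      simp only [smul_apply, one_apply_eq_self, smul_eq_mul]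
      field_simp
    have d := ((hasFDerivWithinAt_comp (u := v) (S := closedBall 0 1)
      (by rw [h.left hzr]; exact h1 z hzc)
      (h.inv_strict hzr).hasDerivAt (hm _)).congr (f₁ := pull (F '' closedBall 0 1) (cinv F r) v)
      (fun w hw => pull_apply_mem hw) (pull_apply_mem (mem_image_of_mem F hzc))).fderivWithin hu
    have e : (deriv F z)⁻¹ * (deriv F z * z / ‖deriv F z‖) = ‖deriv F z‖⁻¹ • z := by
      rw [real_smul]; push_cast; field_simp
    rw [normal_unique hν (h.normal hz1), d, pull_apply_mem (mem_image_of_mem F hzc), h.left hzr]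
    simp only [ContinuousLinearMap.comp_apply, smul_apply,
      one_apply_eq_self, smul_eq_mul]
    rw [e, map_smul, h3 z hz1, smul_eq_mul]
    field_simp
  · rw [h.closure_eq]
    exact fun z hz => pull_apply_not_mem hz

lemma mult_eq (σ : ℝ) : steklovMultiplicity (F '' ball 0 1) σ =
    Module.rank ℝ (Submodule.span ℝ (discSol (fun z => ‖deriv F z‖) σ)) := by
  apply le_antisymm
  · refine rank_le _ _ (F '' closedBall 0 1) _ h.pull_mem ?_ ?_
    · intro u hu z hz
      exact hu.2.2.2 z (by rwa [h.closure_eq])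
    · rintro u hu _ ⟨z, hz, rfl⟩
      rw [← pull_apply_mem (Φ := F) (u := u) hz, hu]; rfl
  · refine rank_le _ _ (closedBall 0 1) _ h.push_mem (fun u hu => hu.2.2.2) ?_
    intro u hu z hz
    have := pull_apply_mem (Φ := cinv F r) (u := u) (mem_image_of_mem F hz)
    rw [hu, h.left (h.sub_closed hz)] at this
    exact this.symm

lemma smooth : IsSmoothDomain (F '' ball 0 1) := by
  refine ⟨h.isOpen_image isOpen_ball h.sub_open,
    ((convex_ball 0 1).isConnected ⟨0, mem_ball_self one_pos⟩).image F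
      (h.hF.continuousOn.mono h.sub_open), ?_, ?_⟩
  · exact ((isCompact_closedBall 0 1).image_of_continuousOn h.contOn).isBounded.subset
      (image_mono ball_subset_closedBall)
  · rw [h.frontier_eq]
    rintro _ ⟨z, hz, rfl⟩
    exact ⟨_, h.normal (by simpa using hz)⟩

lemma analyticDisc : IsAnalyticDisc (F '' ball 0 1) := ⟨F, r, h.hr, h.hF, h.hi, rfl⟩

end Conf

end Pool.Agent.Lib.MP_33ede1_an
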