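import Pool.Agent.Lib.MP_33ede1_an.Trans
import Pool.Agent.Lib.MP_33ede1_an.Alg

/-!
The pair of Blaschke products, the boundary weights and the correspondence between them.
-/

open Set Filter Topology Metric InnerProductSpace Complex Polynomial
open scoped ContDiff ComplexConjugate

namespace Pool.Agent.Lib.MP_33ede1_an

lemma bl_id (s t : ℂ) :
    ‖t + s‖ ^ 2 - ‖1 + conj s * t‖ ^ 2 = (‖t‖ ^ 2 - 1) * (1 - ‖s‖ ^ 2) := by
  simp only [← Complex.normSq_eq_norm_sq, Complex.normSq_apply, add_re, add_im, mul_re, mul_im,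
    conj_re, conj_im, one_re, one_im]
  ring

lemma bl_le {s t : ℂ} (hs : ‖s‖ < 1) (ht : ‖t‖ ≤ 1) : ‖t + s‖ ≤ ‖1 + conj s * t‖ := by
  have h := bl_id s t
  have h1 : 0 ≤ 1 - ‖s‖ ^ 2 := by nlinarith [norm_nonneg s]
  have h2 : ‖t‖ ^ 2 - 1 ≤ 0 := by nlinarith [norm_nonneg t]
  have h3 := mul_nonpos_of_nonpos_of_nonneg h2 h1
  exact abs_le_of_sq_le_sq' (by linarith) (norm_nonneg _) |>.2

lemma bl_ge {s t : ℂ} (hs : ‖s‖ < 1) (ht : 1 ≤ ‖t‖) : ‖1 + conj s * t‖ ≤ ‖t + s‖ := by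
  have h := bl_id s t
  have h1 : 0 ≤ 1 - ‖s‖ ^ 2 := by nlinarith [norm_nonneg s]
  have h2 : 0 ≤ ‖t‖ ^ 2 - 1 := by nlinarith [norm_nonneg t]
  have h3 := mul_nonneg h2 h1
  exact abs_le_of_sq_le_sq' (by linarith) (norm_nonneg _) |>.2

lemma add_ne {s t : ℂ} (hs : ‖s‖ < 1) (ht : 1 ≤ ‖t‖) : t + s ≠ 0 := by
  intro h
  have : t = -s := by linear_combination h
  rw [this, norm_neg] at ht
  linarith

lemma one_add_ne {s : ℂ} (hs : ‖s‖ < 1) : 1 + s ≠ 0 := add_ne hs (by simp)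

lemma conj_al : conj al = al := by
  unfold al
  rw [map_div₀, map_ofNat, map_ofNat]

lemma norm_al : ‖al‖ = 12 / 287 := by
  unfold al
  rw [norm_div]
  simp

/-- The rational function of degree seven. -/
noncomputable def bb (a b x : ℂ) : ℂ := gam a * (x * NN b (x ^ 3) / MM a (x ^ 3))

noncomputable def QQ (p1 p2 t : ℂ) : ℂ := 1 + p1 * t + p2 * t ^ 2

/-- The derivative of the conformal map. -/
noncomputable def ff (a b p1 p2 : ℂ) (c : ℝ) (x : ℂ) : ℂ :=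
  (1 + c * bb a b x ^ 3) * (QQ p1 p2 (x ^ 3) / MM a (x ^ 3)) ^ 2

/-- The numerical data. -/
structure Dat where
  a : ℂ
  b : ℂ
  q1 : ℂ
  p1 : ℂ
  q2 : ℂ
  p2 : ℂ
  k : ℝ
  c : ℝ
  d : ℝ
  ha : conj a = b
  h1 : conj q1 = p1
  h2 : conj q2 = p2
  hs : a + b = -1
  hp : a * b = 287 / 144
  hc : d = -c
  hc0 : |c| = 1 / 10000
  hk : 696 / 100 ≤ k
  w0 : k * q2 = al ^ 2 * b ^ 3
  w0' : k * p2 = al ^ 2 * a ^ 3
  w1 : k * (q1 + q2 * p1) = 4 * (al * (1 + b ^ 3)) - 2 * (al ^ 2 * b ^ 3) * (al * (1 + a ^ 3))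
  w1' : k * (p1 + p2 * q1) = 4 * (al * (1 + a ^ 3)) - 2 * (al ^ 2 * a ^ 3) * (al * (1 + b ^ 3))
  w2 : k * (1 + q1 * p1 + q2 * p2) =
    7 + (al * (1 + b ^ 3)) * (al * (1 + a ^ 3)) - 5 * (al ^ 2 * b ^ 3) * (al ^ 2 * a ^ 3)

lemma exists_dat : Nonempty Dat := by
  set s : ℝ := √251 / 12 with hs
  have s2 : s ^ 2 = 251 / 144 := by
    rw [hs, div_pow, Real.sq_sqrt (by norm_num)]; norm_num
  set S : ℝ := 72001 / 10332 with hS
  set Δ : ℝ := S ^ 2 - 4 * (1 / 41328) with hΔ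
  have hΔ0 : (696 / 100) ^ 2 ≤ Δ := by rw [hΔ, hS]; norm_num
  set k : ℝ := (S + √Δ) / 2 with hk
  have k1 : 696 / 100 ≤ √Δ := Real.le_sqrt_of_sq_le hΔ0
  have k2 : √Δ ^ 2 = Δ := Real.sq_sqrt (le_trans (by norm_num) hΔ0)
  have k3 : k ^ 2 - 72001 / 10332 * k + 1 / 41328 = 0 := by
    rw [hk, ← hS]; linear_combination (1 / 4) * k2 + (1 / 4) * hΔ
  have k4 : (k : ℂ) ^ 2 - 72001 / 10332 * k + 1 / 41328 = 0 := by
    have := congrArg ((↑) : ℝ → ℂ) k3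
    push_cast at this
    exact this
  have s3 : (s : ℂ) ^ 2 = 251 / 144 := by
    have := congrArg ((↑) : ℝ → ℂ) s2
    push_cast at this
    exact this
  set a : ℂ := -1 / 2 + s * I with ha
  set b : ℂ := -1 / 2 - s * I with hb
  have e1 : a + b = -1 := by rw [ha, hb]; ring
  have e2 : a * b = 287 / 144 := by
    rw [ha, hb]; linear_combination (-(s : ℂ) ^ 2) * I_sq + s3
  have e1' : b + a = -1 := by rw [add_comm, e1]
  have e2' : b * a = 287 / 144 := by rw [mul_comm, e2]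
  have e3 : conj a = b := by
    rw [ha, hb]
    simp only [map_add, map_mul, map_div₀, map_neg, map_one, map_ofNat, conj_ofReal, conj_I]
    ring
  refine ⟨⟨a, b, qq1 a k, qq1 b k, qq2 a k, qq2 b k, k, 1 / 10000, -(1 / 10000), e3, ?_, ?_,
    e1, e2, rfl, by norm_num, ?_, w0_val e1 e2 k4, w0_val e1' e2' k4, w1_val e1 e2 k4,
    w1_val e1' e2' k4, w2_val e1 e2 k4⟩⟩
  · simp only [qq1, map_add, map_mul, map_div₀, map_neg, map_ofNat, conj_ofReal, e3]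
  · simp only [qq2, map_add, map_mul, map_div₀, map_neg, map_ofNat, conj_ofReal, e3]
  · rw [hk, hS]; linarith

namespace Dat

/-- The dual data. -/
def swap (D : Dat) : Dat where
  a := D.b
  b := D.a
  q1 := D.p1
  p1 := D.q1
  q2 := D.p2
  p2 := D.q2
  k := D.k
  c := D.d
  d := D.c
  ha := by rw [← D.ha, conj_conj]
  h1 := by rw [← D.h1, conj_conj]
  h2 := by rw [← D.h2, conj_conj]
  hs := by rw [add_comm, D.hs]
  hp := by rw [mul_comm, D.hp]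
  hc := by rw [D.hc, neg_neg]
  hc0 := by rw [D.hc, abs_neg, D.hc0]
  hk := D.hk
  w0 := D.w0'
  w0' := D.w0
  w1 := D.w1'
  w1' := D.w1
  w2 := by linear_combination D.w2

/-- The same data with the opposite weight. -/
def neg (D : Dat) : Dat :=
  { D with
    c := D.d
    d := D.c
    hc := by rw [D.hc, neg_neg]
    hc0 := by rw [D.hc, abs_neg, D.hc0] }

lemma swap_swap (D : Dat) : D.swap.swap = D := rfl

/-- The derivative of the conformal map attached to the data. -/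
noncomputable def f (D : Dat) : ℂ → ℂ := ff D.a D.b D.p1 D.p2 D.c

variable (D : Dat)

lemma hb : conj D.b = D.a := D.swap.ha

lemma norm_b : ‖D.b‖ = ‖D.a‖ := by rw [← D.ha, norm_conj]

lemma norm_a_sq : ‖D.a‖ ^ 2 = 287 / 144 := by
  have h := congrArg norm D.hp
  rw [norm_mul, D.norm_b, norm_div] at h
  simp only [Complex.norm_ofNat] at h
  rw [sq, h]

lemma norm_a3 : 2 ≤ ‖D.a‖ ^ 3 ∧ ‖D.a‖ ^ 3 ≤ 283 / 100 := by
  have h := D.norm_a_sq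
  have h0 := norm_nonneg D.a
  have h1 : ‖D.a‖ ≤ 1415 / 1000 := by nlinarith
  have h2 : 14 / 10 ≤ ‖D.a‖ := by nlinarith
  have : ‖D.a‖ ^ 3 = 287 / 144 * ‖D.a‖ := by rw [← h]; ring
  constructor <;> linarith

lemma norm_ala : ‖al * D.a ^ 3‖ ≤ 119 / 1000 := by
  rw [norm_mul, norm_pow, norm_al]
  linarith [D.norm_a3.2]

lemma conj_alb : conj (al * D.b ^ 3) = al * D.a ^ 3 := by
  rw [map_mul, map_pow, conj_al, D.hb]

lemma norm_gam : ‖gam D.b‖ = ‖gam D.a‖ := by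
  rw [← norm_conj (gam D.a)]
  simp only [gam, map_mul, map_pow, map_sub, map_one, D.ha]

lemma gam_bd : 0 < ‖gam D.a‖ ∧ ‖gam D.a‖ ≤ 4 := by
  have h : (1 - D.a) * (1 - D.b) = 575 / 144 := by linear_combination D.hp - D.hs
  have h2 : ‖1 - D.b‖ = ‖1 - D.a‖ := by
    rw [← norm_conj (1 - D.a), map_sub, map_one, D.ha]
  have h3 := congrArg norm h
  rw [norm_mul, h2, norm_div] at h3
  simp only [Complex.norm_ofNat] at h3
  have h0 := norm_nonneg (1 - D.a)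
  have h4 : ‖1 - D.a‖ ≤ 2 := by nlinarith
  have h5 : 1 ≤ ‖1 - D.a‖ := by nlinarith
  rw [gam, norm_mul, norm_pow, D.norm_a_sq]
  constructor <;> linarith

lemma gam_ne : gam D.a ≠ 0 := norm_pos_iff.1 D.gam_bd.1

lemma N_le {t : ℂ} (ht : ‖t‖ ≤ 1) : ‖NN D.b t‖ ≤ ‖MM D.a t‖ := by
  have h1 := bl_le (s := al) (by rw [norm_al]; norm_num) ht
  have h2 := bl_le (s := al * D.b ^ 3) (lt_of_le_of_lt D.swap.norm_ala (by norm_num)) ht
  rw [conj_al] at h1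
  rw [D.conj_alb] at h2
  rw [NN, MM, norm_mul, norm_mul]
  exact mul_le_mul h1 h2 (norm_nonneg _) (norm_nonneg _)

lemma N_ge {t : ℂ} (ht : 1 ≤ ‖t‖) : ‖MM D.a t‖ ≤ ‖NN D.b t‖ := by
  have h1 := bl_ge (s := al) (by rw [norm_al]; norm_num) ht
  have h2 := bl_ge (s := al * D.b ^ 3) (lt_of_le_of_lt D.swap.norm_ala (by norm_num)) ht
  rw [conj_al] at h1
  rw [D.conj_alb] at h2
  rw [NN, MM, norm_mul, norm_mul]
  exact mul_le_mul h1 h2 (norm_nonneg _) (norm_nonneg _)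

lemma N_ne {t : ℂ} (ht : 1 ≤ ‖t‖) : NN D.b t ≠ 0 :=
  mul_ne_zero (add_ne (by rw [norm_al]; norm_num) ht)
    (add_ne (lt_of_le_of_lt D.swap.norm_ala (by norm_num)) ht)

lemma M_sub {t : ℂ} (ht : ‖t‖ ≤ 21 / 20) : ‖MM D.a t - 1‖ ≤ 18 / 100 := by
  have h1 : ‖al * t‖ ≤ 44 / 1000 := by rw [norm_mul, norm_al]; linarith
  have h2 : ‖al * D.a ^ 3 * t‖ ≤ 125 / 1000 := by
    rw [norm_mul]; nlinarith [D.norm_ala, norm_nonneg t, norm_nonneg (al * D.a ^ 3)]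
  have e : MM D.a t - 1 = al * t + al * D.a ^ 3 * t + (al * t) * (al * D.a ^ 3 * t) := by
    rw [MM]; ring
  have h3 := norm_add₃_le (a := al * t) (b := al * D.a ^ 3 * t)
    (c := (al * t) * (al * D.a ^ 3 * t))
  rw [norm_mul (al * t)] at h3
  rw [e]
  nlinarith [norm_nonneg (al * t), norm_nonneg (al * D.a ^ 3 * t)]

lemma M_low {t : ℂ} (ht : ‖t‖ ≤ 21 / 20) : 82 / 100 ≤ ‖MM D.a t‖ := by
  have h1 := D.M_sub ht
  have h2 := norm_sub_norm_le (1 : ℂ) (MM D.a t)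
  rw [norm_sub_rev, norm_one] at h2
  linarith

lemma M_ne {t : ℂ} (ht : ‖t‖ ≤ 21 / 20) : MM D.a t ≠ 0 :=
  norm_pos_iff.1 (lt_of_lt_of_le (by norm_num) (D.M_low ht))

omit D in
lemma cube_le {x : ℂ} (hx : ‖x‖ ≤ 1) : ‖x ^ 3‖ ≤ 1 := by
  rw [norm_pow]; exact pow_le_one₀ (norm_nonneg _) hx

omit D in
lemma cube_ge {x : ℂ} (hx : 1 ≤ ‖x‖) : 1 ≤ ‖x ^ 3‖ := by
  rw [norm_pow]; exact one_le_pow₀ hx

lemma M_ne' {x : ℂ} (hx : ‖x‖ ≤ 1) : MM D.a (x ^ 3) ≠ 0 :=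
  D.M_ne ((cube_le hx).trans (by norm_num))

lemma gen_le {x : ℂ} {B₁ B₂ : ℝ} (h1 : 0 < B₁) (h2 : B₂ ≤ B₁)
    (e : ‖x‖ * ‖NN D.b (x ^ 3)‖ * B₁ = B₂ * ‖MM D.a (x ^ 3)‖) : ‖x‖ ≤ 1 := by
  by_contra hx
  have hx := not_le.1 hx
  have n1 := D.N_ge (cube_ge hx.le)
  have n2 := norm_pos_iff.2 (D.N_ne (cube_ge hx.le))
  have n3 := norm_nonneg (MM D.a (x ^ 3))
  have a1 : B₂ * ‖MM D.a (x ^ 3)‖ ≤ B₁ * ‖NN D.b (x ^ 3)‖ := mul_le_mul h2 n1 n3 h1.le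
  have a2 : 0 < (‖x‖ - 1) * (‖NN D.b (x ^ 3)‖ * B₁) := mul_pos (by linarith) (mul_pos n2 h1)
  nlinarith

lemma gen_lt {x : ℂ} {B₁ B₂ : ℝ} (h1 : 0 < B₁) (h2 : B₂ < B₁)
    (e : ‖x‖ * ‖NN D.b (x ^ 3)‖ * B₁ = B₂ * ‖MM D.a (x ^ 3)‖) : ‖x‖ < 1 := by
  have hx := D.gen_le h1 h2.le e
  refine lt_of_le_of_ne hx fun hx1 => ?_
  have n1 := D.N_ge (cube_ge hx1.ge)
  have n2 := norm_pos_iff.2 (D.M_ne' hx)
  rw [hx1] at e
  nlinarith

lemma xN_le {y : ℂ} (hy : ‖y‖ ≤ 1) : ‖y‖ * ‖NN D.b (y ^ 3)‖ ≤ ‖MM D.a (y ^ 3)‖ := by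
  have := D.N_le (cube_le hy)
  nlinarith [norm_nonneg (NN D.b (y ^ 3)), norm_nonneg y]

lemma xN_lt {y : ℂ} (hy : ‖y‖ < 1) : ‖y‖ * ‖NN D.b (y ^ 3)‖ < ‖MM D.a (y ^ 3)‖ := by
  have := D.N_le (cube_le hy.le)
  have n2 := norm_pos_iff.2 (D.M_ne' hy.le)
  nlinarith [norm_nonneg (NN D.b (y ^ 3)), norm_nonneg y]

lemma E_norm {x y : ℂ} (e : gam D.a * x * NN D.b (x ^ 3) * MM D.b (y ^ 3) +
    gam D.b * y * NN D.a (y ^ 3) * MM D.a (x ^ 3) = 0) :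
    ‖x‖ * ‖NN D.b (x ^ 3)‖ * ‖MM D.b (y ^ 3)‖ =
      ‖y‖ * ‖NN D.a (y ^ 3)‖ * ‖MM D.a (x ^ 3)‖ := by
  have h := congrArg norm (eq_neg_of_add_eq_zero_left e)
  simp only [norm_neg, norm_mul, D.norm_gam] at h
  apply mul_left_cancel₀ D.gam_bd.1.ne'
  linear_combination h

lemma A_E {x y : ℂ} (e : (1 + al * y ^ 3) * x ^ 3 + gg * D.a * y * x ^ 2 +
    gg * D.b * y ^ 2 * x + (y ^ 3 + al) = 0) :
    gam D.a * x * NN D.b (x ^ 3) * MM D.b (y ^ 3) +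
      gam D.b * y * NN D.a (y ^ 3) * MM D.a (x ^ 3) = 0 := by
  rw [factor D.hs D.hp, e, zero_mul]

lemma A_le {x y : ℂ} (hy : ‖y‖ ≤ 1) (e : (1 + al * y ^ 3) * x ^ 3 + gg * D.a * y * x ^ 2 +
    gg * D.b * y ^ 2 * x + (y ^ 3 + al) = 0) : ‖x‖ ≤ 1 :=
  D.gen_le (norm_pos_iff.2 (D.swap.M_ne' hy)) (D.swap.xN_le hy) (D.E_norm (D.A_E e))

lemma A_lt {x y : ℂ} (hy : ‖y‖ < 1) (e : (1 + al * y ^ 3) * x ^ 3 + gg * D.a * y * x ^ 2 +
    gg * D.b * y ^ 2 * x + (y ^ 3 + al) = 0) : ‖x‖ < 1 :=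
  D.gen_lt (norm_pos_iff.2 (D.swap.M_ne' hy.le)) (D.swap.xN_lt hy) (D.E_norm (D.A_E e))

include D in
lemma lead {y : ℂ} (hy : ‖y‖ ≤ 1) : 1 + al * y ^ 3 ≠ 0 := left_ne_zero_of_mul (D.M_ne' hy)

/-- The polynomial whose roots form the fibre of the degree seven map. -/
noncomputable def fib (w : ℂ) : ℂ[X] :=
  C (gam D.a) * X * ((X ^ 3 + C al) * (X ^ 3 + C (al * D.b ^ 3))) -
    C w * ((1 + C al * X ^ 3) * (1 + C (al * D.a ^ 3) * X ^ 3))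

lemma fib_eval (w z : ℂ) :
    (D.fib w).eval z = gam D.a * z * NN D.b (z ^ 3) - w * MM D.a (z ^ 3) := by
  simp only [fib, NN, MM, eval_sub, eval_mul, eval_C, eval_X, eval_add, eval_pow, eval_one]

lemma fib_root {x z : ℂ} (hx : ‖x‖ ≤ 1) (e : (D.fib (bb D.a D.b x)).eval z = 0) :
    ‖z‖ ≤ 1 ∧ bb D.a D.b z = bb D.a D.b x := by
  have hM := D.M_ne' hx
  have hg := D.gam_ne
  rw [fib_eval] at e
  have e2 : z * NN D.b (z ^ 3) * MM D.a (x ^ 3) = x * NN D.b (x ^ 3) * MM D.a (z ^ 3) := by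
    rw [bb] at e
    field_simp at e
    apply mul_left_cancel₀ hg
    linear_combination e
  have e3 := congrArg norm e2
  simp only [norm_mul] at e3
  have hz := D.gen_le (norm_pos_iff.2 hM) (D.xN_le hx) e3
  refine ⟨hz, ?_⟩
  have hM' := D.M_ne' hz
  rw [bb, bb, (div_eq_div_iff hM' hM).2 e2]

lemma inj (u : ℂ → ℝ) (hu : trans (fun y => 1 + al * y ^ 3) (fun y => gg * D.a * y)
    (fun y => gg * D.b * y ^ 2) (fun y => y ^ 3 + al) u = 0) :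
    ∀ x ∈ closedBall (0 : ℂ) 1, u x = 0 := by
  refine Corr.inj (b := bb D.a D.b) (P := D.fib) (fun x hx => ⟨?_, fun z => D.fib_root hx⟩) ?_ u hu
  · intro h0
    have := (D.fib_root (z := 2) hx (by rw [h0, eval_zero])).1
    norm_num at this
  · intro x hx
    have hl := D.lead hx
    have hM := D.M_ne' hx
    have hg := D.gam_ne
    have hgg : gg ≠ 0 := by unfold gg; norm_num
    obtain ⟨y1, y2, y3, -, f2, f1, f0⟩ :=
      exists_fac (gg * D.b * x) (gg * D.a * x ^ 2) (x ^ 3 + al) hl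
    obtain ⟨r1, r2, r3⟩ := Corr.root_eqs f2 f1 f0
    refine ⟨y1, y2, y3, gg ^ 3 * MM D.a (x ^ 3) / (gam D.a * (1 + al * x ^ 3) ^ 3),
      D.swap.A_le hx r1, D.swap.A_le hx r2, D.swap.A_le hx r3, by positivity, fun z => ?_⟩
    have k := res3_eq (1 + al * z ^ 3) (gg * D.b * z) (gg * D.a * z ^ 2) (z ^ 3 + al) f2 f1 f0
    rw [res3_val D.hs D.hp] at k
    rw [fib_eval, bb]
    field_simp
    linear_combination k

end Dat

end Pool.Agent.Lib.MP_33ede1_an
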