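import Mathlib

/-!
Definitions for the Steklov problem on a smooth planar domain. The Euclidean plane is `ℂ`.
-/

open Set Filter Topology Metric
open scoped ContDiff

namespace Pool.Agent.Lib.MP_33ede1_an

/-- `ν` is the outward unit normal of `Ω` at the point `p`, and the boundary is smooth there:
near `p` the set `Ω` is `{ψ < 0}` for a smooth `ψ` with `ψ p = 0` whose gradient at `p` is the
unit vector `ν`. -/
def IsOutwardNormal (Ω : Set ℂ) (p ν : ℂ) : Prop :=
  ‖ν‖ = 1 ∧ ∃ ψ : ℂ → ℝ, ContDiffAt ℝ ∞ ψ p ∧ ψ p = 0 ∧ HasGradientAt ψ ν p ∧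
    ∀ᶠ z in 𝓝 p, (z ∈ Ω ↔ ψ z < 0)

/-- A bounded domain (connected open set) with smooth boundary. -/
def IsSmoothDomain (Ω : Set ℂ) : Prop :=
  IsOpen Ω ∧ IsConnected Ω ∧ Bornology.IsBounded Ω ∧
    ∀ p ∈ frontier Ω, ∃ ν, IsOutwardNormal Ω p ν

/-- The solutions of the Steklov problem with parameter `σ`: functions on the closure of `Ω`
(extended by zero), of class `C¹` up to the boundary, harmonic in `Ω`, whose outward normal
derivative is `σ u` at every boundary point. -/
def steklovSolutions (Ω : Set ℂ) (σ : ℝ) : Set (ℂ → ℝ) :=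
  {u | ContDiffOn ℝ 1 u (closure Ω) ∧ InnerProductSpace.HarmonicOnNhd u Ω ∧
    (∀ p ∈ frontier Ω, ∀ ν, IsOutwardNormal Ω p ν →
      fderivWithin ℝ u (closure Ω) p ν = σ * u p) ∧
    ∀ z, z ∉ closure Ω → u z = 0}

/-- The multiplicity of `σ` as a Steklov eigenvalue of `Ω` (zero if it is not one): the dimension
of the space of solutions. -/
noncomputable def steklovMultiplicity (Ω : Set ℂ) (σ : ℝ) : Cardinal :=
  Module.rank ℝ (Submodule.span ℝ (steklovSolutions Ω σ))

/-- `Ω` is the image of the unit disc under a map that is holomorphic and injective on a larger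
disc: a simply connected domain bounded by an analytic Jordan curve. -/
def IsAnalyticDisc (Ω : Set ℂ) : Prop :=
  ∃ (F : ℂ → ℂ) (r : ℝ), 1 < r ∧ DifferentiableOn ℂ F (ball 0 r) ∧ InjOn F (ball 0 r) ∧
    Ω = F '' ball 0 1

end Pool.Agent.Lib.MP_33ede1_an
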