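import Pool.Agent.Lib.MP_33ede1_an.Conf

/-!
Transplantation of harmonic functions along an algebraic correspondence of degree three.
-/

open Set Filter Topology Metric InnerProductSpace Complex Polynomial
open scoped ContDiff ComplexConjugate

namespace Pool.Agent.Lib.MP_33ede1_an

/-- The cubic polynomial with the given coefficients. -/
noncomputable def cub (a3 a2 a1 a0 : ℂ) : ℂ[X] := C a3 * X ^ 3 + C a2 * X ^ 2 + C a1 * X + C a0

lemma cub_eval (a3 a2 a1 a0 x : ℂ) :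
    (cub a3 a2 a1 a0).eval x = a3 * x ^ 3 + a2 * x ^ 2 + a1 * x + a0 := by
  simp [cub]

lemma roots_of_fac {p : ℂ[X]} {a x1 x2 x3 : ℂ} (ha : a ≠ 0)
    (h : ∀ x, p.eval x = a * ((x - x1) * (x - x2) * (x - x3))) : p.roots = {x1, x2, x3} := by
  have : p = C a * (({x1, x2, x3} : Multiset ℂ).map fun b => X - C b).prod := by
    apply Polynomial.funext
    intro x
    rw [h]
    simp [mul_assoc]
  rw [this, roots_C_mul _ ha, roots_multiset_prod_X_sub_C]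

lemma exists_fac {a3 : ℂ} (a2 a1 a0 : ℂ) (ha : a3 ≠ 0) : ∃ x1 x2 x3 : ℂ,
    (cub a3 a2 a1 a0).roots = {x1, x2, x3} ∧ a2 = -a3 * (x1 + x2 + x3) ∧
      a1 = a3 * (x1 * x2 + x1 * x3 + x2 * x3) ∧ a0 = -a3 * (x1 * x2 * x3) := by
  let P : Cubic ℂ := ⟨a3, a2, a1, a0⟩
  have hP : P.a ≠ 0 := ha
  obtain ⟨x1, x2, x3, h3⟩ := (Cubic.splits_iff_roots_eq_three (φ := RingHom.id ℂ) hP).1
    (IsAlgClosed.splits _)
  have hb := Cubic.b_eq_three_roots hP h3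
  have hc := Cubic.c_eq_three_roots hP h3
  have hd := Cubic.d_eq_three_roots hP h3
  simp only [RingHom.id_apply, P] at hb hc hd
  refine ⟨x1, x2, x3, roots_of_fac ha fun x => ?_, by rw [hb]; ring, hc, by rw [hd]; ring⟩
  rw [cub_eval, hb, hc, hd]
  ring

lemma roots_of_three {a3 a2 a1 a0 x1 x2 x3 : ℂ} (ha : a3 ≠ 0) (h12 : x1 ≠ x2) (h13 : x1 ≠ x3)
    (h23 : x2 ≠ x3) (e1 : a3 * x1 ^ 3 + a2 * x1 ^ 2 + a1 * x1 + a0 = 0)
    (e2 : a3 * x2 ^ 3 + a2 * x2 ^ 2 + a1 * x2 + a0 = 0)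
    (e3 : a3 * x3 ^ 3 + a2 * x3 ^ 2 + a1 * x3 + a0 = 0) :
    (cub a3 a2 a1 a0).roots = {x1, x2, x3} := by
  have f12 : a3 * (x1 ^ 2 + x1 * x2 + x2 ^ 2) + a2 * (x1 + x2) + a1 = 0 := by
    apply mul_left_cancel₀ (sub_ne_zero.2 h12)
    linear_combination e1 - e2
  have f13 : a3 * (x1 ^ 2 + x1 * x3 + x3 ^ 2) + a2 * (x1 + x3) + a1 = 0 := by
    apply mul_left_cancel₀ (sub_ne_zero.2 h13)
    linear_combination e1 - e3
  have g : a3 * (x1 + x2 + x3) + a2 = 0 := by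
    apply mul_left_cancel₀ (sub_ne_zero.2 h23)
    linear_combination f12 - f13
  refine roots_of_fac ha fun x => ?_
  rw [cub_eval]
  linear_combination e1 + (x - x1) * f12 + (x - x1) * (x - x2) * g

/-- Sum of `u` over the roots of the cubic attached to `y`. -/
noncomputable def rsum {M : Type} [AddCommMonoid M] (a3 a2 a1 a0 : ℂ → ℂ) (u : ℂ → M) (y : ℂ) : M :=
  ((cub (a3 y) (a2 y) (a1 y) (a0 y)).roots.map u).sum

lemma rsum_eq {M : Type} [AddCommMonoid M] {a3 a2 a1 a0 : ℂ → ℂ} (u : ℂ → M) {y x1 x2 x3 : ℂ}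
    (h : (cub (a3 y) (a2 y) (a1 y) (a0 y)).roots = {x1, x2, x3}) :
    rsum a3 a2 a1 a0 u y = u x1 + u x2 + u x3 := by
  simp [rsum, h, add_assoc]

/-- The transplantation operator. -/
noncomputable def trans (a3 a2 a1 a0 : ℂ → ℂ) : (ℂ → ℝ) →ₗ[ℝ] (ℂ → ℝ) where
  toFun u := (closedBall (0 : ℂ) 1).indicator (rsum a3 a2 a1 a0 u)
  map_add' u v := by
    funext z
    by_cases hz : z ∈ closedBall (0 : ℂ) 1
    · simp only [indicator_of_mem hz, Pi.add_apply, rsum, Multiset.sum_map_add]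
    · simp only [indicator_of_notMem hz, Pi.add_apply, add_zero]
  map_smul' c u := by
    funext z
    by_cases hz : z ∈ closedBall (0 : ℂ) 1
    · simp only [indicator_of_mem hz, Pi.smul_apply, rsum, smul_eq_mul, RingHom.id_apply,
        Multiset.sum_map_mul_left]
    · simp only [indicator_of_notMem hz, Pi.smul_apply, smul_zero]

lemma trans_mem {a3 a2 a1 a0 : ℂ → ℂ} {u : ℂ → ℝ} {z : ℂ} (hz : z ∈ closedBall (0 : ℂ) 1) :
    trans a3 a2 a1 a0 u z = rsum a3 a2 a1 a0 u z :=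
  indicator_of_mem hz _

lemma trans_not_mem {a3 a2 a1 a0 : ℂ → ℂ} {u : ℂ → ℝ} {z : ℂ} (hz : z ∉ closedBall (0 : ℂ) 1) :
    trans a3 a2 a1 a0 u z = 0 :=
  indicator_of_notMem hz _

/-- The properties of the correspondence `a3 y x³ + a2 y x² + a1 y x + a0 y = 0`. -/
structure Corr (a3 a2 a1 a0 : ℂ → ℂ) (ρ₁ ρ₂ : ℂ → ℝ) : Prop where
  d3 : Differentiable ℂ a3
  d2 : Differentiable ℂ a2
  d1 : Differentiable ℂ a1
  d0 : Differentiable ℂ a0
  lead : ∀ y, ‖y‖ ≤ 1 → a3 y ≠ 0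
  le : ∀ x y, ‖y‖ ≤ 1 → a3 y * x ^ 3 + a2 y * x ^ 2 + a1 y * x + a0 y = 0 → ‖x‖ ≤ 1
  lt : ∀ x y, ‖y‖ < 1 → a3 y * x ^ 3 + a2 y * x ^ 2 + a1 y * x + a0 y = 0 → ‖x‖ < 1
  branch : ∀ x y, ‖y‖ = 1 → a3 y * x ^ 3 + a2 y * x ^ 2 + a1 y * x + a0 y = 0 →
    ‖x‖ = 1 ∧ 3 * a3 y * x ^ 2 + 2 * a2 y * x + a1 y ≠ 0 ∧
    ∃ ξ : ℂ → ℂ, AnalyticAt ℂ ξ y ∧ ξ y = x ∧
      (∀ᶠ w in 𝓝 y, a3 w * ξ w ^ 3 + a2 w * ξ w ^ 2 + a1 w * ξ w + a0 w = 0) ∧
      ∃ l : ℝ, deriv ξ y * y = l * x ∧ l * ρ₁ x = ρ₂ y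

namespace Corr

variable {a3 a2 a1 a0 : ℂ → ℂ} {ρ₁ ρ₂ : ℂ → ℝ} (h : Corr a3 a2 a1 a0 ρ₁ ρ₂)
include h

lemma powsum (n : ℕ) : DifferentiableOn ℂ (rsum a3 a2 a1 a0 (· ^ n)) (ball 0 1) := by
  have hl : ∀ y ∈ ball (0 : ℂ) 1, a3 y ≠ 0 := fun y hy =>
    h.lead y (le_of_lt (by simpa using hy))
  have e3 := h.d3.differentiableOn (s := ball (0 : ℂ) 1)
  have e2 := h.d2.differentiableOn (s := ball (0 : ℂ) 1)
  have e1 := h.d1.differentiableOn (s := ball (0 : ℂ) 1)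
  have e0 := h.d0.differentiableOn (s := ball (0 : ℂ) 1)
  induction n using Nat.strong_induction_on with
  | _ n ih =>
  match n with
  | 0 =>
    refine (differentiableOn_const (3 : ℂ)).congr fun y hy => ?_
    obtain ⟨x1, x2, x3, hr, -⟩ := exists_fac (a2 y) (a1 y) (a0 y) (hl y hy)
    rw [rsum_eq _ hr]; norm_num
  | 1 =>
    refine (e2.neg.div e3 hl).congr fun y hy => ?_
    obtain ⟨x1, x2, x3, hr, f2, -⟩ := exists_fac (a2 y) (a1 y) (a0 y) (hl y hy)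
    have := hl y hy
    rw [rsum_eq _ hr]
    simp only [Pi.div_apply, Pi.neg_apply, f2]
    field_simp
  | 2 =>
    refine (((e2.div e3 hl).pow 2).sub ((e1.div e3 hl).const_mul 2)).congr fun y hy => ?_
    obtain ⟨x1, x2, x3, hr, f2, f1, -⟩ := exists_fac (a2 y) (a1 y) (a0 y) (hl y hy)
    have := hl y hy
    rw [rsum_eq _ hr]
    simp only [Pi.div_apply, Pi.sub_apply, Pi.pow_apply, f2, f1]
    field_simp
    ring
  | n + 3 =>
    refine ((((e2.mul (ih (n + 2) (by omega))).add (e1.mul (ih (n + 1) (by omega)))).add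
      (e0.mul (ih n (by omega)))).neg.div e3 hl).congr fun y hy => ?_
    obtain ⟨x1, x2, x3, hr, f2, f1, f0⟩ := exists_fac (a2 y) (a1 y) (a0 y) (hl y hy)
    have := hl y hy
    simp only [Pi.div_apply, Pi.neg_apply, Pi.add_apply, Pi.mul_apply, rsum_eq _ hr, f2, f1, f0]
    field_simp
    ring

lemma bound {s : ℝ} (hs : s < 1) : ∃ t : ℝ, 0 ≤ t ∧ t < 1 ∧ ∀ x y : ℂ, ‖y‖ ≤ s →
    a3 y * x ^ 3 + a2 y * x ^ 2 + a1 y * x + a0 y = 0 → ‖x‖ ≤ t := by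
  let K : Set (ℂ × ℂ) := (closedBall 0 1 ×ˢ closedBall 0 s) ∩
    {p | a3 p.2 * p.1 ^ 3 + a2 p.2 * p.1 ^ 2 + a1 p.2 * p.1 + a0 p.2 = 0}
  have c3 := h.d3.continuous
  have c2 := h.d2.continuous
  have c1 := h.d1.continuous
  have c0 := h.d0.continuous
  have hK : IsCompact K := ((isCompact_closedBall 0 1).prod (isCompact_closedBall 0 s)).inter_right
    (isClosed_eq (by fun_prop) continuous_const)
  have hmem : ∀ x y : ℂ, ‖y‖ ≤ s → a3 y * x ^ 3 + a2 y * x ^ 2 + a1 y * x + a0 y = 0 →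
      (x, y) ∈ K := fun x y hy e =>
    ⟨⟨by simpa using h.le x y (hy.trans hs.le) e, by simpa using hy⟩, e⟩
  rcases K.eq_empty_or_nonempty with hE | hN
  · exact ⟨0, le_rfl, one_pos, fun x y hy e => by
      have := hmem x y hy e; rw [hE] at this; exact this.elim⟩
  · obtain ⟨p, hp, hmax⟩ := hK.exists_isMaxOn hN (f := fun p : ℂ × ℂ => ‖p.1‖) (by fun_prop)
    refine ⟨‖p.1‖, norm_nonneg _, h.lt p.1 p.2 ?_ hp.2, fun x y hy e => hmax (hmem x y hy e)⟩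
    have : ‖p.2‖ ≤ s := by simpa using hp.1.2
    linarith

omit h in
lemma root_eqs {b3 b2 b1 b0 x1 x2 x3 : ℂ} (f2 : b2 = -b3 * (x1 + x2 + x3))
    (f1 : b1 = b3 * (x1 * x2 + x1 * x3 + x2 * x3)) (f0 : b0 = -b3 * (x1 * x2 * x3)) :
    b3 * x1 ^ 3 + b2 * x1 ^ 2 + b1 * x1 + b0 = 0 ∧ b3 * x2 ^ 3 + b2 * x2 ^ 2 + b1 * x2 + b0 = 0 ∧
      b3 * x3 ^ 3 + b2 * x3 ^ 2 + b1 * x3 + b0 = 0 := by
  subst f2 f1 f0
  refine ⟨by ring, by ring, by ring⟩

lemma holo {φ : ℂ → ℂ} (hφ : DifferentiableOn ℂ φ (ball 0 1)) {y : ℂ} (hy : ‖y‖ < 1) :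
    AnalyticAt ℂ (rsum a3 a2 a1 a0 φ) y := by
  obtain ⟨s, hys, hs⟩ := exists_between hy
  obtain ⟨t, ht0, ht1, ht⟩ := h.bound hs
  let c : ℕ → ℂ := fun n => (n.factorial : ℂ)⁻¹ * iteratedDeriv n φ 0
  have hsum : ∀ x : ℂ, ‖x‖ < 1 → HasSum (fun n => c n * x ^ n) (φ x) := fun x hx => by
    have := Complex.hasSum_taylorSeries_on_ball hφ (z := x) (by simpa using hx)
    have e : (fun n => c n * x ^ n) =
        fun n : ℕ => (n.factorial : ℂ)⁻¹ • (x - 0) ^ n • iteratedDeriv n φ 0 := by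
      funext n
      simp only [c, smul_eq_mul, sub_zero]
      ring
    rw [e]
    exact this
  have hs' : Summable fun n => 3 * (‖c n‖ * t ^ n) := by
    have := (hsum t (by simpa [abs_of_nonneg ht0] using ht1)).summable.norm
    refine Summable.mul_left 3 (this.congr fun n => ?_)
    simp [abs_of_nonneg ht0]
  have hd : DifferentiableOn ℂ (fun w => ∑' n, c n * rsum a3 a2 a1 a0 (· ^ n) w) (ball 0 s) := by
    refine differentiableOn_tsum_of_summable_norm hs'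
      (fun n => ((h.powsum n).mono (ball_subset_ball hs.le)).const_mul _) isOpen_ball ?_
    intro n w hw
    have hw' : ‖w‖ ≤ s := le_of_lt (by simpa using hw)
    obtain ⟨x1, x2, x3, hr, f2, f1, f0⟩ :=
      exists_fac (a2 w) (a1 w) (a0 w) (h.lead w (hw'.trans hs.le))
    obtain ⟨r1, r2, r3⟩ := root_eqs f2 f1 f0
    have b : ∀ x : ℂ, ‖x‖ ≤ t → ‖x ^ n‖ ≤ t ^ n := fun x hx => by
      rw [norm_pow]; exact pow_le_pow_left₀ (norm_nonneg _) hx n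
    rw [rsum_eq _ hr, norm_mul]
    have : ‖x1 ^ n + x2 ^ n + x3 ^ n‖ ≤ 3 * t ^ n := by
      have := norm_add₃_le (a := x1 ^ n) (b := x2 ^ n) (c := x3 ^ n)
      linarith [b _ (ht _ _ hw' r1), b _ (ht _ _ hw' r2), b _ (ht _ _ hw' r3)]
    nlinarith [norm_nonneg (c n)]
  refine DifferentiableOn.analyticAt (s := ball 0 s) (hd.congr fun w hw => ?_)
    (isOpen_ball.mem_nhds (by simpa using hys))
  have hw' : ‖w‖ < 1 := lt_trans (by simpa using hw) hs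
  obtain ⟨x1, x2, x3, hr, f2, f1, f0⟩ := exists_fac (a2 w) (a1 w) (a0 w) (h.lead w hw'.le)
  obtain ⟨r1, r2, r3⟩ := root_eqs f2 f1 f0
  have := ((hsum _ (h.lt _ _ hw' r1)).add (hsum _ (h.lt _ _ hw' r2))).add
    (hsum _ (h.lt _ _ hw' r3))
  rw [rsum_eq _ hr, ← this.tsum_eq]
  refine tsum_congr fun n => ?_
  rw [rsum_eq _ hr]
  ring

lemma harm {u : ℂ → ℝ} (hu : HarmonicOnNhd u (ball 0 1)) :
    HarmonicOnNhd (trans a3 a2 a1 a0 u) (ball 0 1) := by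
  intro y hy
  obtain ⟨φ, hφ, he⟩ := hu.exists_analyticOnNhd_ball_re_eq
  have h1 := (h.holo hφ.differentiableOn (y := y) (by simpa using hy)).harmonicAt_re
  refine (harmonicAt_congr_nhds ?_).1 h1
  filter_upwards [isOpen_ball.mem_nhds hy] with w hw
  have hw' : ‖w‖ < 1 := by simpa using hw
  obtain ⟨x1, x2, x3, hr, f2, f1, f0⟩ := exists_fac (a2 w) (a1 w) (a0 w) (h.lead w hw'.le)
  obtain ⟨r1, r2, r3⟩ := root_eqs f2 f1 f0
  rw [trans_mem (ball_subset_closedBall hw), rsum_eq _ hr, rsum_eq _ hr,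
    ← he (x := x1) (by simpa using h.lt _ _ hw' r1),
    ← he (x := x2) (by simpa using h.lt _ _ hw' r2),
    ← he (x := x3) (by simpa using h.lt _ _ hw' r3)]
  simp

lemma bdry {σ : ℝ} {u : ℂ → ℝ} (hu : u ∈ discSol ρ₁ σ) {y : ℂ} (hy : ‖y‖ = 1) :
    ContDiffWithinAt ℝ 1 (trans a3 a2 a1 a0 u) (closedBall 0 1) y ∧
      fderivWithin ℝ (trans a3 a2 a1 a0 u) (closedBall 0 1) y y =
        σ * ρ₂ y * trans a3 a2 a1 a0 u y := by
  obtain ⟨h1, -, h3, -⟩ := hu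
  have hyc : y ∈ closedBall (0 : ℂ) 1 := by simp [hy]
  have hl := h.lead y hy.le
  obtain ⟨x1, x2, x3, hr, f2, f1, f0⟩ := exists_fac (a2 y) (a1 y) (a0 y) hl
  obtain ⟨r1, r2, r3⟩ := root_eqs f2 f1 f0
  obtain ⟨n1, s1, ξ1, an1, v1, z1, l1, p1, q1⟩ := h.branch x1 y hy r1
  obtain ⟨n2, s2, ξ2, an2, v2, z2, l2, p2, q2⟩ := h.branch x2 y hy r2
  obtain ⟨n3, s3, ξ3, an3, v3, z3, l3, p3, q3⟩ := h.branch x3 y hy r3
  have h12 : x1 ≠ x2 := by
    rintro rfl; apply s1; rw [f2, f1]; ring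
  have h13 : x1 ≠ x3 := by
    rintro rfl; apply s1; rw [f2, f1]; ring
  have h23 : x2 ≠ x3 := by
    rintro rfl; apply s2; rw [f2, f1]; ring
  have ne : ∀ {f g : ℂ → ℂ}, AnalyticAt ℂ f y → AnalyticAt ℂ g y → f y ≠ g y →
      ∀ᶠ w in 𝓝 y, f w ≠ g w := fun hf hg hne =>
    ((hf.continuousAt.sub hg.continuousAt).eventually_ne (sub_ne_zero.2 hne)).mono
      fun _ hw => sub_ne_zero.1 hw
  have ev : trans a3 a2 a1 a0 u =ᶠ[𝓝[closedBall 0 1] y] u ∘ ξ1 + u ∘ ξ2 + u ∘ ξ3 := by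
    filter_upwards [self_mem_nhdsWithin, nhdsWithin_le_nhds z1, nhdsWithin_le_nhds z2,
      nhdsWithin_le_nhds z3, nhdsWithin_le_nhds (ne an1 an2 (by rwa [v1, v2])),
      nhdsWithin_le_nhds (ne an1 an3 (by rwa [v1, v3])),
      nhdsWithin_le_nhds (ne an2 an3 (by rwa [v2, v3]))] with w hw e1 e2 e3 k12 k13 k23
    rw [trans_mem hw,
      rsum_eq _ (roots_of_three (h.lead w (by simpa using hw)) k12 k13 k23 e1 e2 e3)]
    rfl
  have evy := ev.self_of_nhdsWithin hyc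
  have hm : ∀ {ξ : ℂ → ℂ},
      (∀ᶠ w in 𝓝 y, a3 w * ξ w ^ 3 + a2 w * ξ w ^ 2 + a1 w * ξ w + a0 w = 0) →
      ∀ᶠ w in 𝓝[closedBall 0 1] y, ξ w ∈ closedBall (0 : ℂ) 1 := fun hz => by
    filter_upwards [self_mem_nhdsWithin, nhdsWithin_le_nhds hz] with w hw e
    simpa using h.le _ w (by simpa using hw) e
  have c1 : ContDiffWithinAt ℝ 1 u (closedBall 0 1) (ξ1 y) := h1 _ (by simp [v1, n1])
  have c2 : ContDiffWithinAt ℝ 1 u (closedBall 0 1) (ξ2 y) := h1 _ (by simp [v2, n2])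
  have c3 : ContDiffWithinAt ℝ 1 u (closedBall 0 1) (ξ3 y) := h1 _ (by simp [v3, n3])
  refine ⟨(((contDiffWithinAt_comp c1 an1 (hm z1)).add (contDiffWithinAt_comp c2 an2 (hm z2))).add
    (contDiffWithinAt_comp c3 an3 (hm z3))).congr_of_eventuallyEq ev evy, ?_⟩
  have d := ((((hasFDerivWithinAt_comp c1 an1.differentiableAt.hasDerivAt (hm z1)).add
    (hasFDerivWithinAt_comp c2 an2.differentiableAt.hasDerivAt (hm z2))).add
    (hasFDerivWithinAt_comp c3 an3.differentiableAt.hasDerivAt (hm z3))).congr_of_eventuallyEq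
    ev evy).fderivWithin (uniqueDiff_closedBall y hyc)
  rw [d, evy]
  simp only [add_apply, ContinuousLinearMap.comp_apply, smul_apply, one_apply_eq_self,
    smul_eq_mul, Pi.add_apply, Function.comp_apply, v1, v2, v3, p1, p2, p3]
  rw [← real_smul, ← real_smul, ← real_smul, map_smul, map_smul, map_smul, h3 _ n1, h3 _ n2,
    h3 _ n3]
  simp only [smul_eq_mul]
  linear_combination σ * u x1 * q1 + σ * u x2 * q2 + σ * u x3 * q3

lemma maps (σ : ℝ) : MapsTo (trans a3 a2 a1 a0) (discSol ρ₁ σ) (discSol ρ₂ σ) := by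
  intro u hu
  refine ⟨?_, h.harm hu.2.1, fun y hy => (h.bdry hu hy).2, fun z hz => trans_not_mem hz⟩
  intro y hy
  rcases (show ‖y‖ ≤ 1 by simpa using hy).lt_or_eq with hlt | heq
  · exact ((h.harm hu.2.1 y (by simpa using hlt)).1.of_le (by norm_num)).contDiffWithinAt
  · exact (h.bdry hu heq).1

omit h in
/-- Injectivity from the incidence identity of the projective plane of order two. -/
lemma inj {b : ℂ → ℂ} {P : ℂ → ℂ[X]}
    (hP : ∀ x, ‖x‖ ≤ 1 → P (b x) ≠ 0 ∧ ∀ z, (P (b x)).eval z = 0 → ‖z‖ ≤ 1 ∧ b z = b x)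
    (hI : ∀ x, ‖x‖ ≤ 1 → ∃ y1 y2 y3 c : ℂ, ‖y1‖ ≤ 1 ∧ ‖y2‖ ≤ 1 ∧ ‖y3‖ ≤ 1 ∧ c ≠ 0 ∧ ∀ z,
      (a3 y1 * z ^ 3 + a2 y1 * z ^ 2 + a1 y1 * z + a0 y1) *
      (a3 y2 * z ^ 3 + a2 y2 * z ^ 2 + a1 y2 * z + a0 y2) *
      (a3 y3 * z ^ 3 + a2 y3 * z ^ 2 + a1 y3 * z + a0 y3) = c * (z - x) ^ 2 * (P (b x)).eval z)
    (u : ℂ → ℝ) (hu : trans a3 a2 a1 a0 u = 0) : ∀ x ∈ closedBall (0 : ℂ) 1, u x = 0 := by
  have key : ∀ x, ‖x‖ ≤ 1 → 2 * u x + ((P (b x)).roots.map u).sum = 0 := by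
    intro x hx
    obtain ⟨y1, y2, y3, c, n1, n2, n3, hc, e⟩ := hI x hx
    have hp : cub (a3 y1) (a2 y1) (a1 y1) (a0 y1) * cub (a3 y2) (a2 y2) (a1 y2) (a0 y2) *
        cub (a3 y3) (a2 y3) (a1 y3) (a0 y3) = C c * ((X - C x) ^ 2 * P (b x)) := by
      apply Polynomial.funext
      intro z
      simp only [eval_mul, cub_eval, e, eval_C, eval_pow, eval_sub, eval_X]
      ring
    have hq : (X - C x) ^ 2 * P (b x) ≠ 0 :=
      mul_ne_zero (pow_ne_zero 2 (X_sub_C_ne_zero x)) (hP x hx).1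
    have hne : C c * ((X - C x) ^ 2 * P (b x)) ≠ 0 := mul_ne_zero (C_ne_zero.2 hc) hq
    have hr := congrArg (fun p : ℂ[X] => (p.roots.map u).sum) hp
    rw [← hp] at hne
    simp only [roots_mul hne, roots_mul (left_ne_zero_of_mul hne), roots_C_mul _ hc, roots_mul hq,
      roots_pow, roots_X_sub_C, Multiset.map_add, Multiset.sum_add] at hr
    have t : ∀ y : ℂ, ‖y‖ ≤ 1 → ((cub (a3 y) (a2 y) (a1 y) (a0 y)).roots.map u).sum = 0 :=
      fun y hy => by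
        have := trans_mem (a3 := a3) (a2 := a2) (a1 := a1) (a0 := a0) (u := u) (z := y)
          (by simpa using hy)
        rw [hu] at this
        exact this.symm
    rw [t y1 n1, t y2 n2, t y3 n3] at hr
    simp only [Multiset.map_nsmul, Multiset.map_singleton, Multiset.sum_nsmul,
      Multiset.sum_singleton, nsmul_eq_mul, Nat.cast_ofNat] at hr
    linarith
  intro x hx
  have hx' : ‖x‖ ≤ 1 := by simpa using hx
  set S := ((P (b x)).roots.map u).sum with hS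
  have hall : ∀ z ∈ (P (b x)).roots, u z = -S / 2 := by
    intro z hz
    obtain ⟨n, e⟩ := (hP x hx').2 z ((mem_roots (hP x hx').1).1 hz)
    have := key z n
    rw [e] at this
    linarith
  have h2 : S = (P (b x)).roots.card * (-S / 2) := by
    conv_lhs => rw [hS, Multiset.map_congr rfl hall]
    simp
  have h3 : S = 0 := by
    have : (0 : ℝ) ≤ (P (b x)).roots.card := Nat.cast_nonneg _
    have h4 : S * (1 + (P (b x)).roots.card / 2) = 0 := by linarith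
    rcases mul_eq_zero.1 h4 with h5 | h5
    · exact h5
    · linarith
  have := key x hx'
  linarith

end Corr

end Pool.Agent.Lib.MP_33ede1_an
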